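import Pool.Agent.Y283.NK.Stm

/-!
Project NK, part POT: the integral over `t` of the logarithm of a product `∏ (1 - t μ k)`.
-/

set_option autoImplicit false

namespace Pool.Agent.Y891.NK

open MeasureTheory Set Metric Filter Topology
open scoped ENNReal NNReal
open Pool.Agent.Y283.NK

theorem measurable_lm : Measurable lm := by
  unfold lm
  refine Measurable.ite (measurableSet_singleton 0) measurable_const ?_
  refine ENNReal.measurable_ofReal.comp ?_
  have : Measurable Real.posLog := by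
    unfold Real.posLog
    exact measurable_const.max Real.measurable_log
  exact this.comp measurable_inv

theorem lm_mul (x y : ℝ) : lm (x * y) ≤ lm x + lm y := by
  unfold lm
  by_cases hx : x = 0
  · simp [hx]
  by_cases hy : y = 0
  · simp [hy]
  rw [if_neg hx, if_neg hy, if_neg (mul_ne_zero hx hy), ← ENNReal.ofReal_add Real.posLog_nonneg
    Real.posLog_nonneg, mul_inv]
  exact ENNReal.ofReal_le_ofReal Real.posLog_mul

theorem lm_one : lm 1 = 0 := by
  unfold lm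
  rw [if_neg one_ne_zero, inv_one]
  simp

theorem lm_prod {ι : Type} (s : Finset ι) (g : ι → ℝ) : lm (∏ k ∈ s, g k) ≤ ∑ k ∈ s, lm (g k) := by
  classical
  induction s using Finset.induction_on with
  | empty => rw [Finset.prod_empty, Finset.sum_empty, lm_one]
  | insert a s ha ih =>
    rw [Finset.prod_insert ha, Finset.sum_insert ha]
    exact (lm_mul _ _).trans (by gcongr)

theorem lm_anti {x y : ℝ} (hx : 0 ≤ x) (hxy : x ≤ y) : lm y ≤ lm x := by
  unfold lm
  rcases hx.eq_or_lt with h | h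
  · rw [if_pos h.symm]
    exact le_top
  · rw [if_neg h.ne', if_neg (h.trans_le hxy).ne']
    apply ENNReal.ofReal_le_ofReal
    exact Real.posLog_le_posLog (inv_nonneg.2 (hx.trans hxy)) (inv_anti₀ h hxy)

theorem lm_le_of_exp {x y : ℝ} (hx : 0 < x) (hy : 0 ≤ y) (h : x⁻¹ ≤ Real.exp y) :
    lm x ≤ ENNReal.ofReal y := by
  unfold lm
  rw [if_neg hx.ne']
  apply ENNReal.ofReal_le_ofReal
  unfold Real.posLog
  apply max_le hy
  rw [Real.log_le_iff_le_exp (by positivity)]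
  exact h

/-- one factor -/
theorem one_factor (m : Measure ℂ) (hm : LogBd m) (R : ℝ) : ∃ C : ℝ≥0, ∀ μ : ℂ,
    ∫⁻ t in ball (0:ℂ) R, lm ‖1 - t * μ‖ ∂m ≤ C * ENNReal.ofReal ‖μ‖ := by
  obtain ⟨C0, hmass, hpot⟩ := hm R
  obtain ⟨R1, hR1⟩ : ∃ R1 : ℝ, R1 = max R 1 := ⟨_, rfl⟩
  have hR1R : R ≤ R1 := by rw [hR1]; exact le_max_left _ _
  have hR11 : 1 ≤ R1 := by rw [hR1]; exact le_max_right _ _
  have hR10 : 0 < R1 := by linarith
  obtain ⟨P, hP⟩ : ∃ P : ℝ, P = Real.posLog (2 * R1) := ⟨_, rfl⟩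
  have hP0 : 0 ≤ P := by rw [hP]; exact Real.posLog_nonneg
  refine ⟨C0 * ((P + 1) * (2 * R1)).toNNReal, fun μ => ?_⟩
  have hcoe : ((C0 * ((P + 1) * (2 * R1)).toNNReal : ℝ≥0) : ℝ≥0∞) =
      C0 * ENNReal.ofReal ((P + 1) * (2 * R1)) := by
    rw [ENNReal.coe_mul]
    rfl
  rw [hcoe]
  rcases le_or_gt ‖μ‖ (1 / (2 * R1)) with hμ | hμ
  · have hb : ∀ t ∈ ball (0:ℂ) R, lm ‖1 - t * μ‖ ≤ ENNReal.ofReal (2 * R1 * ‖μ‖) := by
      intro t ht
      rw [mem_ball_zero_iff] at ht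
      obtain ⟨y, hy⟩ : ∃ y : ℝ, y = ‖t * μ‖ := ⟨_, rfl⟩
      have hy0 : 0 ≤ y := by rw [hy]; positivity
      have hy1 : y ≤ R1 * ‖μ‖ := by
        rw [hy, norm_mul]
        gcongr
        linarith
      have hy2 : R1 * ‖μ‖ ≤ 1 / 2 := by
        calc R1 * ‖μ‖ ≤ R1 * (1 / (2 * R1)) := by gcongr
          _ = 1 / 2 := by field_simp
      have h1 : 1 - y ≤ ‖1 - t * μ‖ := by
        have := norm_sub_norm_le (1 : ℂ) (t * μ)
        rw [norm_one, ← hy] at this
        exact this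
      have h2 : 0 < 1 - y := by linarith
      refine (lm_anti h2.le h1).trans ?_
      refine (lm_le_of_exp h2 (y := 2 * y) (by positivity) ?_).trans ?_
      · have h3 := Real.add_one_le_exp (2 * y)
        refine le_trans ?_ h3
        rw [inv_le_iff_one_le_mul₀ h2]
        nlinarith
      · apply ENNReal.ofReal_le_ofReal
        linarith
    calc ∫⁻ t in ball (0:ℂ) R, lm ‖1 - t * μ‖ ∂m
        ≤ ∫⁻ t in ball (0:ℂ) R, ENNReal.ofReal (2 * R1 * ‖μ‖) ∂m :=
          setLIntegral_mono' measurableSet_ball hb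
      _ = ENNReal.ofReal (2 * R1 * ‖μ‖) * m (ball (0:ℂ) R) := setLIntegral_const _ _
      _ ≤ ENNReal.ofReal (((P + 1) * (2 * R1)) * ‖μ‖) * C0 := by
          refine mul_le_mul' (ENNReal.ofReal_le_ofReal ?_) hmass
          apply mul_le_mul_of_nonneg_right _ (norm_nonneg _)
          nlinarith
      _ = C0 * ENNReal.ofReal ((P + 1) * (2 * R1)) * ENNReal.ofReal ‖μ‖ := by
          rw [ENNReal.ofReal_mul (by positivity)]
          ring
  · have hμ0 : 0 < ‖μ‖ := lt_trans (by positivity) hμ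
    have hμne : μ ≠ 0 := norm_pos_iff.1 hμ0
    have hμ1 : 1 ≤ 2 * R1 * ‖μ‖ := by
      rw [div_lt_iff₀ (by positivity)] at hμ
      linarith
    have hb : ∀ t : ℂ, lm ‖1 - t * μ‖ ≤ ENNReal.ofReal P + lm ‖t - μ⁻¹‖ := by
      intro t
      have e : ‖1 - t * μ‖ = ‖μ‖ * ‖t - μ⁻¹‖ := by
        rw [← norm_mul, ← norm_neg]
        congr 1
        field_simp
        ring
      rw [e]
      refine (lm_mul _ _).trans ?_
      gcongr
      unfold lm
      rw [if_neg hμ0.ne', hP]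
      apply ENNReal.ofReal_le_ofReal
      apply Real.posLog_le_posLog (by positivity)
      rw [inv_le_iff_one_le_mul₀ hμ0]
      exact hμ1
    calc ∫⁻ t in ball (0:ℂ) R, lm ‖1 - t * μ‖ ∂m
        ≤ ∫⁻ t in ball (0:ℂ) R, (ENNReal.ofReal P + lm ‖t - μ⁻¹‖) ∂m :=
          lintegral_mono fun t => hb t
      _ = ENNReal.ofReal P * m (ball (0:ℂ) R) + ∫⁻ t in ball (0:ℂ) R, lm ‖t - μ⁻¹‖ ∂m := by
          rw [lintegral_add_left measurable_const, setLIntegral_const]
      _ ≤ ENNReal.ofReal P * C0 + C0 := by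
          gcongr
          exact hpot _
      _ = C0 * ENNReal.ofReal (P + 1) := by
          rw [ENNReal.ofReal_add hP0 zero_le_one, ENNReal.ofReal_one]
          ring
      _ ≤ C0 * ENNReal.ofReal ((P + 1) * (2 * R1 * ‖μ‖)) := by
          gcongr
          nlinarith
      _ = C0 * ENNReal.ofReal ((P + 1) * (2 * R1)) * ENNReal.ofReal ‖μ‖ := by
          rw [← mul_assoc (P + 1), ENNReal.ofReal_mul (by positivity)]
          ring

theorem main : S_POT := by
  intro m hm R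
  obtain ⟨C, hC⟩ := one_factor m hm R
  refine ⟨C, fun n μ => ?_⟩
  calc ∫⁻ t in ball (0:ℂ) R, lm ‖∏ k, (1 - t * μ k)‖ ∂m
      ≤ ∫⁻ t in ball (0:ℂ) R, ∑ k, lm ‖1 - t * μ k‖ ∂m := by
        refine lintegral_mono fun t => ?_
        rw [norm_prod]
        exact lm_prod _ _
    _ = ∑ k, ∫⁻ t in ball (0:ℂ) R, lm ‖1 - t * μ k‖ ∂m := by
        refine lintegral_finsetSum _ fun k _ => ?_
        exact measurable_lm.comp (by fun_prop)
    _ ≤ ∑ k, C * ENNReal.ofReal ‖μ k‖ := Finset.sum_le_sum fun k _ => hC (μ k)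
    _ = C * ENNReal.ofReal (∑ k, ‖μ k‖) := by
        rw [← Finset.mul_sum, ENNReal.ofReal_sum_of_nonneg fun k _ => norm_nonneg _]

end Pool.Agent.Y891.NK
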