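import Pool.Agent.Y283.NK.Stm
import Pool.Agent.Y891.NK.POT

/-!
Project NK, parts AREA and VOL: area integrals of the Cauchy kernel, logarithmic potentials of
Lebesgue measure.
-/

set_option autoImplicit false

namespace Pool.Agent.Y891.NK

open MeasureTheory Set Metric Filter Topology
open scoped ENNReal NNReal
open Pool.Agent.Y283.NK

theorem area_unit : ∫⁻ z in ball (0:ℂ) 1, ‖z‖ₑ⁻¹ ≠ ⊤ := by
  have h := integrableOn_ball_of_norm_le_rpow (E := ℂ) (F := ℝ) (μ := volume)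
    (f := fun z => ‖z‖⁻¹) (C := 1) (α := 1) (r := 1) (by rw [Complex.finrank_real_complex]; norm_num)
    (by rw [Complex.finrank_real_complex]; norm_num) (Eventually.of_forall fun z => by
      rw [norm_inv, norm_norm, one_mul, Real.rpow_neg (norm_nonneg z), Real.rpow_one])
    (by fun_prop)
  have h2 := h.2
  unfold HasFiniteIntegral at h2
  refine ne_top_of_le_ne_top h2.ne (le_of_eq ?_)
  refine lintegral_congr_ae ?_
  have h0 : ∀ᵐ z : ℂ ∂(volume.restrict (ball (0:ℂ) 1)), z ≠ 0 := by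
    apply ae_restrict_of_ae
    have : (volume : Measure ℂ) {0} = 0 := measure_singleton 0
    exact compl_mem_ae_iff.2 this
  filter_upwards [h0] with z hz
  have hz0 : 0 < ‖z‖ := norm_pos_iff.2 hz
  rw [Real.enorm_eq_ofReal (by positivity), ENNReal.ofReal_inv_of_pos hz0, ofReal_norm]

theorem area_bound (R : ℝ) : ∃ C : ℝ≥0, ∀ w : ℂ, ∫⁻ z in ball (0:ℂ) R, ‖z - w‖ₑ⁻¹ ≤ C := by
  obtain ⟨A, hA⟩ : ∃ A : ℝ≥0∞, A = ∫⁻ z in ball (0:ℂ) 1, ‖z‖ₑ⁻¹ := ⟨_, rfl⟩
  have hA' : A ≠ ⊤ := by rw [hA]; exact area_unit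
  have hV : (volume : Measure ℂ) (ball (0:ℂ) R) ≠ ⊤ := measure_ball_lt_top.ne
  refine ⟨(A + volume (ball (0:ℂ) R)).toNNReal, fun w => ?_⟩
  rw [ENNReal.coe_toNNReal (ENNReal.add_ne_top.2 ⟨hA', hV⟩)]
  have hb : ∀ z : ℂ, ‖z - w‖ₑ⁻¹ ≤ (ball (0:ℂ) 1).indicator (fun z => ‖z‖ₑ⁻¹) (z - w) + 1 := by
    intro z
    by_cases hz : z - w ∈ ball (0:ℂ) 1
    · rw [indicator_of_mem hz]
      exact le_self_add
    · rw [indicator_of_notMem hz, zero_add]
      rw [mem_ball_zero_iff, not_lt] at hz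
      rw [ENNReal.inv_le_one, ← ofReal_norm]
      exact ENNReal.one_le_ofReal.2 hz
  calc ∫⁻ z in ball (0:ℂ) R, ‖z - w‖ₑ⁻¹
      ≤ ∫⁻ z in ball (0:ℂ) R, ((ball (0:ℂ) 1).indicator (fun z => ‖z‖ₑ⁻¹) (z - w) + 1) :=
        lintegral_mono fun z => hb z
    _ = (∫⁻ z in ball (0:ℂ) R, (ball (0:ℂ) 1).indicator (fun z => ‖z‖ₑ⁻¹) (z - w)) +
          volume (ball (0:ℂ) R) := by
        rw [lintegral_add_right _ measurable_const, setLIntegral_const, one_mul]
    _ ≤ (∫⁻ z : ℂ, (ball (0:ℂ) 1).indicator (fun z => ‖z‖ₑ⁻¹) (z - w)) +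
          volume (ball (0:ℂ) R) := by
        exact add_le_add_left (setLIntegral_le_lintegral _ _) _
    _ = A + volume (ball (0:ℂ) R) := by
        rw [lintegral_sub_right_eq_self (fun z : ℂ => (ball (0:ℂ) 1).indicator
          (fun z => ‖z‖ₑ⁻¹) z) w, lintegral_indicator measurableSet_ball, hA]

theorem main_area : S_AREA := area_bound

theorem lm_le_inv (w : ℂ) : lm ‖w‖ ≤ ‖w‖ₑ⁻¹ := by
  by_cases hw : w = 0
  · rw [hw]
    simp
  · have hw0 : 0 < ‖w‖ := norm_pos_iff.2 hw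
    unfold lm
    rw [if_neg hw0.ne', ← ofReal_norm, ← ENNReal.ofReal_inv_of_pos hw0]
    apply ENNReal.ofReal_le_ofReal
    unfold Real.posLog
    apply max_le (by positivity)
    have := Real.log_le_sub_one_of_pos (inv_pos.2 hw0)
    linarith

theorem vol_complex : LogBd (volume : Measure ℂ) := by
  intro R
  obtain ⟨C, hC⟩ := area_bound R
  have hV : (volume : Measure ℂ) (ball (0:ℂ) R) ≠ ⊤ := measure_ball_lt_top.ne
  refine ⟨C + (volume (ball (0:ℂ) R)).toNNReal, ?_, fun s => ?_⟩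
  · rw [ENNReal.coe_add, ENNReal.coe_toNNReal hV]
    exact le_add_self
  · calc ∫⁻ t in ball (0:ℂ) R, lm ‖t - s‖ ≤ ∫⁻ t in ball (0:ℂ) R, ‖t - s‖ₑ⁻¹ :=
          lintegral_mono fun t => lm_le_inv (t - s)
      _ ≤ C := hC s
      _ ≤ _ := by
          rw [ENNReal.coe_add]
          exact le_self_add

theorem lm_zero_of_ge {x : ℝ} (hx : 1 ≤ x) : lm x = 0 := by
  unfold lm
  rw [if_neg (by linarith)]
  have : Real.posLog x⁻¹ = 0 := by
    unfold Real.posLog
    apply max_eq_left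
    apply Real.log_nonpos (by positivity)
    exact inv_le_one_of_one_le₀ hx
  rw [this, ENNReal.ofReal_zero]

/-- the potential of Lebesgue measure on the line -/
theorem line_unit : ∫⁻ t : ℝ, lm |t| ≠ ⊤ := by
  have h := integrableOn_ball_of_norm_le_rpow (E := ℝ) (F := ℝ) (μ := volume)
    (f := fun z => 2 * ‖z‖ ^ (-(1 / 2) : ℝ)) (C := 2) (α := 1 / 2) (r := 1)
    (by rw [Module.finrank_self]) (by rw [Module.finrank_self]; norm_num)
    (Eventually.of_forall fun z => by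
      rw [Real.norm_of_nonneg (by positivity)])
    (by
      apply Measurable.aestronglyMeasurable
      fun_prop)
  have h2 := h.2
  unfold HasFiniteIntegral at h2
  have h3 : ∫⁻ t : ℝ, lm |t| = ∫⁻ t in ball (0:ℝ) 1, lm |t| := by
    rw [← lintegral_indicator measurableSet_ball]
    refine lintegral_congr fun t => ?_
    by_cases ht : t ∈ ball (0:ℝ) 1
    · rw [indicator_of_mem ht]
    · rw [indicator_of_notMem ht]
      rw [mem_ball_zero_iff, not_lt, Real.norm_eq_abs] at ht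
      exact lm_zero_of_ge ht
  rw [h3]
  refine ne_top_of_le_ne_top h2.ne ?_
  refine lintegral_mono_ae ?_
  have h0 : ∀ᵐ z : ℝ ∂(volume.restrict (ball (0:ℝ) 1)), z ≠ 0 := by
    apply ae_restrict_of_ae
    have : (volume : Measure ℝ) {0} = 0 := measure_singleton 0
    exact compl_mem_ae_iff.2 this
  filter_upwards [h0] with t ht
  have ht0 : 0 < |t| := abs_pos.2 ht
  rw [Real.enorm_eq_ofReal (by positivity)]
  unfold lm
  rw [if_neg ht0.ne']
  apply ENNReal.ofReal_le_ofReal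
  unfold Real.posLog
  apply max_le (by positivity)
  obtain ⟨y, hy⟩ : ∃ y : ℝ, y = |t| ^ (-(1 / 2) : ℝ) := ⟨_, rfl⟩
  have hy0 : 0 < y := by rw [hy]; positivity
  have h4 : |t|⁻¹ = y ^ 2 := by
    rw [hy, ← Real.rpow_natCast, ← Real.rpow_mul ht0.le, ← Real.rpow_neg_one]
    norm_num
  rw [Real.norm_eq_abs, ← hy, h4, Real.log_pow]
  have := Real.log_le_sub_one_of_pos hy0
  push_cast
  linarith

theorem vol_real : LogBd (Measure.map (fun t : ℝ => (t : ℂ)) volume) := by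
  intro R
  obtain ⟨A, hA⟩ : ∃ A : ℝ≥0∞, A = ∫⁻ t : ℝ, lm |t| := ⟨_, rfl⟩
  have hA' : A ≠ ⊤ := by rw [hA]; exact line_unit
  have hmeas : Measurable (fun t : ℝ => (t : ℂ)) := by fun_prop
  have hpre : (fun t : ℝ => (t : ℂ)) ⁻¹' (ball (0:ℂ) R) = ball (0:ℝ) R := by
    ext t
    simp
  have hV : (volume : Measure ℝ) (ball (0:ℝ) R) ≠ ⊤ := measure_ball_lt_top.ne
  refine ⟨(A + volume (ball (0:ℝ) R)).toNNReal, ?_, fun s => ?_⟩
  · rw [ENNReal.coe_toNNReal (ENNReal.add_ne_top.2 ⟨hA', hV⟩),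
      Measure.map_apply hmeas measurableSet_ball, hpre]
    exact le_add_self
  · have hmf : Measurable (fun t : ℂ => lm ‖t - s‖) := measurable_lm.comp (by fun_prop)
    rw [ENNReal.coe_toNNReal (ENNReal.add_ne_top.2 ⟨hA', hV⟩),
      setLIntegral_map measurableSet_ball hmf hmeas, hpre]
    calc ∫⁻ t in ball (0:ℝ) R, lm ‖(t : ℂ) - s‖ ≤ ∫⁻ t : ℝ, lm ‖(t : ℂ) - s‖ :=
          setLIntegral_le_lintegral _ _
      _ ≤ ∫⁻ t : ℝ, lm |t - s.re| := by
          refine lintegral_mono fun t => lm_anti (abs_nonneg _) ?_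
          have h1 := Complex.abs_re_le_norm ((t : ℂ) - s)
          simpa using h1
      _ = A := by
          rw [lintegral_sub_right_eq_self (fun t : ℝ => lm |t|) s.re, hA]
      _ ≤ _ := le_self_add

theorem main_vol : S_VOL := ⟨vol_complex, vol_real⟩

end Pool.Agent.Y891.NK
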